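import Pool.Agent.PMC.Je

/-!
The question for the prime `p` fails if and only if there is a countably infinite simple locally
finite `p'`-group of one of two kinds; and then it already fails for an extension of a simple
group, or of the `p`-th power of a simple group, by a cyclic group of order `p`.
-/

set_option autoImplicit false

universe u

/-- `P` is a Chernikov group: it has a normal subgroup `A` of finite index which is commutative and
divisible and has only finitely many elements of prime order. -/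
def Pool.Agent.Results.MP_8fcd2c_al.Criterion.IsChernikov {G : Type u} [Group G]
    (P : Subgroup G) : Prop :=
  ∃ A : Subgroup G, A ≤ P ∧ (A.subgroupOf P).Normal ∧ A.relIndex P ≠ 0 ∧
    (∀ a ∈ A, ∀ b ∈ A, a * b = b * a) ∧
    (∀ a ∈ A, ∀ m : ℕ, 0 < m → ∃ b ∈ A, b ^ m = a) ∧
    {a : G | a ∈ A ∧ ∃ q : ℕ, q.Prime ∧ a ^ q = 1}.Finite

open Pool.Agent.Results.MP_8fcd2c_al.Criterion

/-- `G` answers the question for the prime `p` in the negative: `G` is locally finite, has the
`p`-minimal condition and a subnormal series `H 0 = 1, ..., H n = G` with finite or `p'`-factors,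
and the subgroup generated by the `p`-elements of `G` is not Chernikov. -/
def Pool.Agent.Results.MP_8fcd2c_al.Criterion.Counterexample (p : ℕ) (G : Type u) [Group G] :
    Prop :=
  (∀ s : Set G, s.Finite → (Subgroup.closure s : Set G).Finite) ∧
  (¬ ∃ K : ℕ → Subgroup G, ∀ i : ℕ, K (i + 1) < K i ∧
    ∃ g ∈ K i, g ∉ K (i + 1) ∧ ∃ k : ℕ, g ^ (p ^ k) = 1) ∧
  (∃ (n : ℕ) (H : ℕ → Subgroup G), H 0 = ⊥ ∧ H n = ⊤ ∧
    ∀ i < n, H i ≤ H (i + 1) ∧ ((H i).subgroupOf (H (i + 1))).Normal ∧
      ((H i).relIndex (H (i + 1)) ≠ 0 ∨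
        ∀ x ∈ H (i + 1), ∀ k : ℕ, x ^ (p ^ k) ∈ H i → x ∈ H i)) ∧
  ¬ IsChernikov (Subgroup.closure {g : G | ∃ k : ℕ, g ^ (p ^ k) = 1})

/-- `S` is a countably infinite simple locally finite `p'`-group which involves infinitely many
primes or contains a quasicyclic subgroup, and either every proper subgroup of `S` is Chernikov, or
`S` has an automorphism `α` of order `p` such that every proper subgroup `W` of `S` which is
generated by the elements `w⁻¹ * α w` with `w ∈ W` is Chernikov. -/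
def Pool.Agent.Results.MP_8fcd2c_al.Criterion.Critical (p : ℕ) (S : Type u) [Group S] : Prop :=
  Countable S ∧ Infinite S ∧ IsSimpleGroup S ∧
  (∀ s : Set S, s.Finite → (Subgroup.closure s : Set S).Finite) ∧
  (∀ s : S, ∀ k : ℕ, s ^ (p ^ k) = 1 → s = 1) ∧
  ({q : ℕ | q.Prime ∧ ∃ s : S, s ≠ 1 ∧ s ^ q = 1}.Infinite ∨
    ∃ (q : ℕ) (a : ℕ → S), q.Prime ∧ a 0 ≠ 1 ∧ a 0 ^ q = 1 ∧ ∀ n, a (n + 1) ^ q = a n) ∧
  ((∀ W : Subgroup S, W ≠ ⊤ → IsChernikov W) ∨
    ∃ α : MulAut S, α ≠ 1 ∧ α ^ p = 1 ∧ ∀ W : Subgroup S, W ≠ ⊤ →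
      Subgroup.closure ((fun w => w⁻¹ * α w) '' (W : Set S)) = W → IsChernikov W)

/-- For a prime `p` the following are equivalent: (1) the question has a negative answer for `p`;
(2) there is a simple group of one of the two kinds above; (3) the question has a negative answer
for `p` with a group `G` having a normal subgroup `N` of index `p` which is isomorphic to `S` or to
the direct power `S ^ p` of a countably infinite simple group `S`. -/
theorem Pool.Agent.Results.MP_8fcd2c_al.Criterion.result (p : ℕ) (hp : p.Prime) :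
    List.TFAE [
      ∃ (G : Type u) (_ : Group G), Counterexample p G,
      ∃ (S : Type u) (_ : Group S), Critical p S,
      ∃ (S G : Type u) (_ : Group S) (_ : Group G) (N : Subgroup G) (k : ℕ),
        Critical p S ∧ (k = 1 ∨ k = p) ∧ N.Normal ∧ N.index = p ∧
          Nonempty (N ≃* (Fin k → S)) ∧ Counterexample p G] := by
  tfae_have 1 → 2 := by
    rintro ⟨G, hGg, hG⟩
    obtain ⟨S, _, hc, hi, hs, hS, hpp, hN, h⟩ :=
      (PMC.main_iff' hp).1 (PMC.not_Q1_iff.2 ⟨G, hGg, hG⟩)
    refine ⟨S, inferInstance, hc, hi, ⟨hs⟩, hS, hpp, ?_, h⟩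
    rcases hN with hN | hN
    · left
      intro hfin
      apply hN
      exact ⟨hfin.toFinset, fun q hq v h1 h2 => hfin.mem_toFinset.2 ⟨hq, v, h2, h1⟩⟩
    · exact Or.inr hN
  tfae_have 2 → 3 := by
    rintro ⟨S, _, hC⟩
    obtain ⟨hc, hi, hs, hS, hpp, hN, h⟩ := id hC
    have hs' : ∀ N : Subgroup S, N.Normal → N = ⊥ ∨ N = ⊤ := fun N hN =>
      hs.eq_bot_or_eq_top_of_normal N hN
    have := Fact.mk hp
    have : NeZero p := ⟨hp.ne_zero⟩
    rcases h with h | ⟨α, h1, hα, h⟩
    · refine ⟨S, PMC.Ex (PMC.sh p S), inferInstance, inferInstance, PMC.nn (PMC.sh p S), p, hC,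
        Or.inr rfl, PMC.nn_normal _,
        PMC.index_nn hp (PMC.sh_ne_one hp) (PMC.sh_pow_self p S), ?_,
        PMC.cex_a hp hs' hS hpp h⟩
      exact ⟨(PMC.nnEquiv (PMC.sh p S)).trans
        (MulEquiv.arrowCongr (ZMod.finEquiv p).symm.toEquiv (MulEquiv.refl S))⟩
    · refine ⟨S, PMC.Ex α, inferInstance, inferInstance, PMC.nn α, 1, hC,
        Or.inl rfl, PMC.nn_normal _, PMC.index_nn hp h1 hα, ?_,
        PMC.cex_b hp hs' hS hpp h1 hα h⟩
      exact ⟨(PMC.nnEquiv α).trans (MulEquiv.funUnique (Fin 1) S).symm⟩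
  tfae_have 3 → 1 := by
    rintro ⟨S, G, _, hG, N, k, -, -, -, -, -, h⟩
    exact ⟨G, hG, h⟩
  tfae_finish
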