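import Pool.Agent.PMC.Jf

/-!
The question has a positive answer if every infinite factor of the series is a `p'`-group which is
locally soluble, or residually finite, or of finite exponent, or, more generally, in which the
subgroups without proper subgroups of finite index are locally soluble or else involve only
finitely many primes and contain no quasicyclic subgroup.
-/

set_option autoImplicit false

universe u

/-- `P` is a Chernikov group: it has a normal subgroup `A` of finite index which is commutative and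
divisible and has only finitely many elements of prime order. -/
def Pool.Agent.Results.MP_8fcd2c_al.GoodFactors.IsChernikov {G : Type u} [Group G]
    (P : Subgroup G) : Prop :=
  ∃ A : Subgroup G, A ≤ P ∧ (A.subgroupOf P).Normal ∧ A.relIndex P ≠ 0 ∧
    (∀ a ∈ A, ∀ b ∈ A, a * b = b * a) ∧
    (∀ a ∈ A, ∀ m : ℕ, 0 < m → ∃ b ∈ A, b ^ m = a) ∧
    {a : G | a ∈ A ∧ ∃ q : ℕ, q.Prime ∧ a ^ q = 1}.Finite

/-- `B / A` is locally soluble: a finite subset of `B` generates a subgroup some term of whose
derived series lies in `A`. -/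
def Pool.Agent.Results.MP_8fcd2c_al.GoodFactors.LocallySoluble {G : Type u} [Group G]
    (A B : Subgroup G) : Prop :=
  ∀ F : Set G, F.Finite → F ⊆ B →
    ∃ m : ℕ, (derivedSeries (Subgroup.closure F) m).map (Subgroup.closure F).subtype ≤ A

/-- `B / A` is residually finite: every element of `B` outside `A` lies outside some subgroup of
finite index of `B` which contains `A`. -/
def Pool.Agent.Results.MP_8fcd2c_al.GoodFactors.ResiduallyFinite {G : Type u} [Group G]
    (A B : Subgroup G) : Prop :=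
  ∀ g ∈ B, g ∉ A → ∃ N : Subgroup G, A ≤ N ∧ N ≤ B ∧ N.relIndex B ≠ 0 ∧ g ∉ N

/-- only finitely many primes are orders of elements of `B / A` -/
def Pool.Agent.Results.MP_8fcd2c_al.GoodFactors.FinitelyManyPrimes {G : Type u} [Group G]
    (A B : Subgroup G) : Prop :=
  {q : ℕ | q.Prime ∧ ∃ g ∈ B, g ∉ A ∧ g ^ q ∈ A}.Finite

/-- `B / A` contains a quasicyclic subgroup: there are a prime `q` and elements `a 0, a 1, ...` of
`B` such that modulo `A` the element `a 0` has order `q` and `a (n + 1) ^ q = a n` for all `n`. -/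
def Pool.Agent.Results.MP_8fcd2c_al.GoodFactors.HasQuasicyclic {G : Type u} [Group G]
    (A B : Subgroup G) : Prop :=
  ∃ (q : ℕ) (a : ℕ → G), q.Prime ∧ (∀ n, a n ∈ B) ∧ a 0 ∉ A ∧ a 0 ^ q ∈ A ∧
    ∀ n, a (n + 1) ^ q * (a n)⁻¹ ∈ A

open Pool.Agent.Results.MP_8fcd2c_al.GoodFactors

/-- Let `G` be a locally finite group with the `p`-minimal condition and a subnormal series
`H 0 = 1, ..., H n = G`, each factor of which is finite or is a `p'`-group which is locally soluble,
or residually finite, or of finite exponent, or such that every subgroup `B / H i` of it without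
proper subgroups of finite index is locally soluble, or involves only finitely many primes and
contains no quasicyclic subgroup. Then the subgroup generated by the `p`-elements of `G` is
Chernikov. -/
theorem Pool.Agent.Results.MP_8fcd2c_al.GoodFactors.result
    (p : ℕ) (hp : p.Prime) (G : Type u) [Group G]
    (locallyFinite : ∀ s : Set G, s.Finite → (Subgroup.closure s : Set G).Finite)
    (pMinimal : ¬ ∃ K : ℕ → Subgroup G, ∀ i : ℕ, K (i + 1) < K i ∧
      ∃ g ∈ K i, g ∉ K (i + 1) ∧ ∃ k : ℕ, g ^ (p ^ k) = 1)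
    (n : ℕ) (H : ℕ → Subgroup G) (h0 : H 0 = ⊥) (hn : H n = ⊤)
    (series : ∀ i < n, H i ≤ H (i + 1) ∧ ((H i).subgroupOf (H (i + 1))).Normal ∧
      ((H i).relIndex (H (i + 1)) ≠ 0 ∨
        ((∀ x ∈ H (i + 1), ∀ k : ℕ, x ^ (p ^ k) ∈ H i → x ∈ H i) ∧
          (LocallySoluble (H i) (H (i + 1)) ∨ ResiduallyFinite (H i) (H (i + 1)) ∨
            (∃ e : ℕ, 0 < e ∧ ∀ g ∈ H (i + 1), g ^ e ∈ H i) ∨
            ∀ B : Subgroup G, H i ≤ B → B ≤ H (i + 1) →
              (∀ N : Subgroup G, H i ≤ N → N ≤ B → N.relIndex B ≠ 0 → N = B) →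
              (LocallySoluble (H i) B ∨
                (FinitelyManyPrimes (H i) B ∧ ¬ HasQuasicyclic (H i) B)))))) :
    IsChernikov (Subgroup.closure {g : G | ∃ k : ℕ, g ^ (p ^ k) = 1}) := by
  refine PMC.top_main hp locallyFinite pMinimal h0 hn fun i hi => ?_
  obtain ⟨h1, h2, h3⟩ := series i hi
  refine ⟨h1, h2, h3.imp id fun h => ⟨h.1, ?_⟩⟩
  rcases h.2 with h4 | h4 | ⟨e, he, h4⟩ | h4
  · exact PMC.good_of_locSol h4
  · exact PMC.good_of_resFin h4
  · exact PMC.good_of_exp ((PMC.nz_subgroupOf h1).1 h2) he h4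
  · intro B hB1 hB2 hB3
    refine (h4 B hB1 hB2 hB3).imp id fun h5 => ⟨?_, h5.2⟩
    have hfin : {q : ℕ | q.Prime ∧ ∃ g ∈ B, g ∉ H i ∧ g ^ q ∈ H i}.Finite := h5.1
    exact ⟨hfin.toFinset, fun q hq g hg h6 h7 => hfin.mem_toFinset.2 ⟨hq, g, hg, h7, h6⟩⟩
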