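import Pool.Agent.PMC.Fin

/-!
Locally finite groups with the `p`-minimal condition and a series with finite or `p'`-factors:
reduction of the Chernikov property of the subgroup generated by the `p`-elements to infinite
simple `p'`-sections.
-/

set_option autoImplicit false

open scoped commutatorElement

universe u

/-- `P` is a Chernikov group: it has a normal subgroup `A` of finite index which is commutative and
divisible and has only finitely many elements of prime order. -/
def Pool.Agent.Results.MP_8fcd2c_al.SimpleSection.IsChernikov {G : Type u} [Group G]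
    (P : Subgroup G) : Prop :=
  ∃ A : Subgroup G, A ≤ P ∧ (A.subgroupOf P).Normal ∧ A.relIndex P ≠ 0 ∧
    (∀ a ∈ A, ∀ b ∈ A, a * b = b * a) ∧
    (∀ a ∈ A, ∀ m : ℕ, 0 < m → ∃ b ∈ A, b ^ m = a) ∧
    {a : G | a ∈ A ∧ ∃ q : ℕ, q.Prime ∧ a ^ q = 1}.Finite

open Pool.Agent.Results.MP_8fcd2c_al.SimpleSection

/-- Let `G` be a locally finite group with the `p`-minimal condition and a subnormal series
`H 0 = 1, ..., H n = G` whose factors are finite or `p'`-groups. Either the subgroup generated by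
the `p`-elements of `G` is Chernikov, or there are a `p`-element `x`, a non-Chernikov `p'`-subgroup
`U = [U, x]` of `G` all of whose proper subgroups `W = [W, x]` are Chernikov, and a normal subgroup
`L` of `U` such that `U / L` is an infinite simple group, isomorphic to a section of an infinite
factor of the series, not locally soluble, and such that `U / L` has the minimal condition on
subgroups or some power of `x` normalises `L` and acts nontrivially on `U / L`. -/
theorem Pool.Agent.Results.MP_8fcd2c_al.SimpleSection.result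
    (p : ℕ) (hp : p.Prime) (G : Type u) [Group G]
    (locallyFinite : ∀ s : Set G, s.Finite → (Subgroup.closure s : Set G).Finite)
    (pMinimal : ¬ ∃ K : ℕ → Subgroup G, ∀ i : ℕ, K (i + 1) < K i ∧
      ∃ g ∈ K i, g ∉ K (i + 1) ∧ ∃ k : ℕ, g ^ (p ^ k) = 1)
    (n : ℕ) (H : ℕ → Subgroup G) (h0 : H 0 = ⊥) (hn : H n = ⊤)
    (series : ∀ i < n, H i ≤ H (i + 1) ∧ ((H i).subgroupOf (H (i + 1))).Normal ∧
      ((H i).relIndex (H (i + 1)) ≠ 0 ∨
        ∀ x ∈ H (i + 1), ∀ k : ℕ, x ^ (p ^ k) ∈ H i → x ∈ H i)) :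
    IsChernikov (Subgroup.closure {g : G | ∃ k : ℕ, g ^ (p ^ k) = 1}) ∨
    ∃ (x : G) (U L : Subgroup G),
      (∃ k : ℕ, x ^ (p ^ k) = 1) ∧
      (∀ u ∈ U, ∀ k : ℕ, u ^ (p ^ k) = 1 → u = 1) ∧
      ⁅U, Subgroup.zpowers x⁆ = U ∧ ¬ IsChernikov U ∧
      (∀ W ≤ U, ⁅W, Subgroup.zpowers x⁆ = W → W ≠ U → IsChernikov W) ∧
      L < U ∧ (L.subgroupOf U).Normal ∧ L.relIndex U = 0 ∧
      (∀ N : Subgroup G, L ≤ N → N ≤ U → (N.subgroupOf U).Normal → N = L ∨ N = U) ∧
      (∃ i < n, (H i).relIndex (H (i + 1)) = 0 ∧ U ⊓ H i ≤ L ∧ U = L ⊔ (U ⊓ H (i + 1)) ∧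
        ∃ F : Set G, F.Finite ∧ F ⊆ U ∧ F ⊆ H (i + 1) ∧ ∀ m : ℕ,
          ¬ (derivedSeries (Subgroup.closure F) m).map (Subgroup.closure F).subtype ≤ L) ∧
      ((¬ ∃ S : ℕ → Subgroup G, ∀ i : ℕ, L ≤ S i ∧ S i ≤ U ∧ S (i + 1) < S i) ∨
        ∃ y ∈ Subgroup.zpowers x, (∀ l : G, l ∈ L ↔ y * l * y⁻¹ ∈ L) ∧
          ∃ v ∈ U, v * y * v⁻¹ * y⁻¹ ∉ L) := by
  by_cases hc : PMC.Cher (Subgroup.closure {g : G | ∃ k : ℕ, g ^ (p ^ k) = 1})
  · left
    exact hc
  · right
    obtain ⟨x, L, U, h1, h2, h3, h4, h5, ⟨h6, h7, h8, h9, h10⟩, i, hi, h11, h12, h13, F, h14⟩ :=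
      PMC.reduction hp locallyFinite pMinimal h0 hn series hc
    refine ⟨x, U, L, h1, h2, h3, h4, h5, h6, (PMC.nz_subgroupOf h6.le).2 h7, h8, ?_,
      ⟨i, hi, h11, h12, le_antisymm h13 (sup_le h6.le inf_le_left), F, h14⟩, ?_⟩
    · intro N hN1 hN2 hN3
      exact h9 N hN1 hN2 ((PMC.nz_subgroupOf hN2).1 hN3)
    · rcases h10 with h | ⟨y, hy, hyL, hv⟩
      · exact Or.inl h
      · right
        refine ⟨y, hy, ?_, hv⟩
        -- `y` has finite order, so `y L y⁻¹ ≤ L` gives equality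
        intro l
        refine ⟨hyL l, fun h => ?_⟩
        obtain ⟨k, hk⟩ := h1
        have hyk : ∃ m : ℕ, 0 < m ∧ y ^ m = 1 := by
          obtain ⟨z, rfl⟩ := hy
          refine ⟨p ^ k, pow_pos hp.pos k, ?_⟩
          show (x ^ z) ^ (p ^ k) = 1
          rw [← zpow_natCast, zpow_comm, zpow_natCast, hk, one_zpow]
        obtain ⟨m, hm, hym⟩ := hyk
        have hpow : ∀ j : ℕ, ∀ l ∈ L, y ^ j * l * (y ^ j)⁻¹ ∈ L := by
          intro j
          induction j with
          | zero => intro l hl; simpa using hl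
          | succ j ih =>
            intro l hl
            have e : y ^ (j + 1) * l * (y ^ (j + 1))⁻¹ = y ^ j * (y * l * y⁻¹) * (y ^ j)⁻¹ := by
              rw [pow_succ]
              group
            rw [e]
            exact ih _ (hyL l hl)
        have h15 := hpow (m - 1) _ h
        have e : y ^ (m - 1) * (y * l * y⁻¹) * (y ^ (m - 1))⁻¹ = y ^ m * l * (y ^ m)⁻¹ := by
          obtain ⟨j, rfl⟩ : ∃ j, m = j + 1 := ⟨m - 1, by omega⟩
          rw [Nat.add_sub_cancel, pow_succ]
          group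
        rw [e, hym] at h15
        simpa using h15
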